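import Mathlib
import Pool.Agent.H118.SY.Final

set_option autoImplicit false

/-!
# Growth of the parameters of the quantitative six exponentials theorem
-/

namespace Pool.Agent.H118.SY

/-- growth at most like `Y ^ k` -/
def PB (k : ℕ) (f : ℕ → ℕ) : Prop := ∃ c : ℕ, ∀ Y, 2 ≤ Y → f Y ≤ c * Y ^ k

theorem PB.const (a : ℕ) : PB 0 fun _ => a := ⟨a, fun Y hY => by simp⟩

theorem PB.id : PB 1 fun Y => Y := ⟨1, fun Y _ => by simp⟩

theorem PB.mono {k l : ℕ} {f : ℕ → ℕ} (hf : PB k f) (h : k ≤ l) : PB l f := by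
  obtain ⟨c, hc⟩ := hf
  exact ⟨c, fun Y hY => (hc Y hY).trans (Nat.mul_le_mul_left _ (Nat.pow_le_pow_right (by omega) h))⟩

theorem PB.mul {k l : ℕ} {f g : ℕ → ℕ} (hf : PB k f) (hg : PB l g) : PB (k + l) fun Y => f Y * g Y := by
  obtain ⟨c, hc⟩ := hf
  obtain ⟨d, hd⟩ := hg
  refine ⟨c * d, fun Y hY => ?_⟩
  calc f Y * g Y ≤ (c * Y ^ k) * (d * Y ^ l) := Nat.mul_le_mul (hc Y hY) (hd Y hY)
    _ = _ := by ring

theorem PB.add {k l : ℕ} {f g : ℕ → ℕ} (hf : PB k f) (hg : PB l g) :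
    PB (max k l) fun Y => f Y + g Y := by
  obtain ⟨c, hc⟩ := hf.mono (le_max_left k l)
  obtain ⟨d, hd⟩ := hg.mono (le_max_right k l)
  refine ⟨c + d, fun Y hY => ?_⟩
  rw [add_mul]
  exact Nat.add_le_add (hc Y hY) (hd Y hY)

theorem PB.pow {k : ℕ} {f : ℕ → ℕ} (hf : PB k f) (n : ℕ) : PB (k * n) fun Y => f Y ^ n := by
  obtain ⟨c, hc⟩ := hf
  refine ⟨c ^ n, fun Y hY => ?_⟩
  calc f Y ^ n ≤ (c * Y ^ k) ^ n := Nat.pow_le_pow_left (hc Y hY) n
    _ = _ := by rw [mul_pow, pow_mul]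

theorem PB_ss : PB 4 ss := by
  have h : ss = fun Y => 4096 * Y ^ 4 + 1 := by
    funext Y
    unfold ss
    rfl
  rw [h]
  exact (((PB.const 4096).mul (PB.id.pow 4)).add (PB.const 1)).mono (by norm_num)

theorem PB_DD : PB 14 DD :=
  (((PB.const 4).mul ((PB.id.add (PB.const 2)).pow 2)).mul (PB_ss.pow 3)).mono (by norm_num)

theorem PB_SS : PB 9 SS :=
  (((PB.const 2).mul (PB.id.add (PB.const 2))).mul (PB_ss.pow 2)).mono (by norm_num)

theorem PB_Tf : PB 84 Tf := (((PB.const 16).mul (PB_DD.pow 6)).add (PB.const 1)).mono (by norm_num)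

theorem PB_tt : PB 1 tt := ((PB.const 320).mul PB.id).mono (by norm_num)

theorem PB_gam {k : ℕ} {T : ℕ → ℕ} (hT : PB k T) : PB (16 + k) fun Y => gam Y (T Y) :=
  ((((PB.const 20).mul (PB.id.pow 2)).mul PB_DD).mul hT).mono (by norm_num)

theorem PB_hh {k : ℕ} {T : ℕ → ℕ} (hT : PB k T) : PB (15 + k) fun Y => hh Y (T Y) :=
  ((((PB.const 6).mul PB.id).mul hT).mul PB_DD).mono (by omega)

theorem PB_EE : PB 25 EE :=
  (((((PB.const 3).add PB_tt).add (PB_gam PB_SS)).add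
    ((PB.id.pow 2).mul (((PB.const 6).mul PB_SS).mul PB_DD))).add
    (PB.id.mul (PB_tt.add (PB_hh PB_SS)))).mono (by norm_num)

theorem PB_lam {k : ℕ} {T : ℕ → ℕ} (hT : PB k T) (hk : 10 ≤ k) : PB (16 + k) fun Y => lam Y (T Y) :=
  (PB.id.mul ((PB.id.mul (((PB.const 6).mul hT).mul PB_DD)).add
    ((PB_tt.add PB_EE).add (PB_hh hT)))).mono (by simp; omega)

theorem PB_PP {k : ℕ} {v : ℕ → ℕ} (hv : PB k v) (hk : 1 ≤ k) : PB (252 + k) fun Y => PP Y (v Y) :=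
  (((((PB.const 10).add ((PB.const 4).mul PB_tt)).add PB_EE).add
    (((((PB.const 4).add PB.id).add PB_tt).add hv).mul (PB_Tf.pow 3))).add
    (PB_lam PB_Tf (by norm_num))).mono (by simp; omega)

theorem PB_QQ : PB 100 QQ :=
  (((PB.const 3).add ((PB.const 2).mul PB_tt)).add
    ((((PB.const 2).mul (PB.id.pow 2)).add ((PB.const 2).mul PB.id)).mul
      ((PB.const 6).mul (PB_Tf.mul PB_DD)))).mono (by norm_num)

theorem PB_VB : PB 184 VB :=
  ((((((PB.const 4).mul ((PB_DD.mul (PB.id.pow 2)).mul PB_Tf |> fun h => h.add (PB.const 1))).mul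
    PB_Tf)).add PB_Tf).add PB_DD).mono (by norm_num)

theorem VB_pos (Y : ℕ) : 1 ≤ VB Y := by
  unfold VB
  have := DD_pos Y
  omega

/-- the number of binary digits grows at most linearly -/
theorem log_VB : ∃ c : ℕ, ∀ Y, 2 ≤ Y → VB Y ≤ 2 ^ (c * Y) := by
  obtain ⟨c, hc⟩ := PB_VB
  refine ⟨c + 184, fun Y hY => (hc Y hY).trans ?_⟩
  have h1 : c ≤ 2 ^ (c * Y) :=
    (Nat.lt_two_pow_self (n := c)).le.trans (Nat.pow_le_pow_right (by norm_num)
      (Nat.le_mul_of_pos_right _ (by omega)))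
  have h2 : Y ^ 184 ≤ 2 ^ (184 * Y) := by
    rw [mul_comm, pow_mul]
    exact Nat.pow_le_pow_left Nat.lt_two_pow_self.le _
  calc c * Y ^ 184 ≤ 2 ^ (c * Y) * 2 ^ (184 * Y) := Nat.mul_le_mul h1 h2
    _ = _ := by rw [← pow_add, add_mul]

end Pool.Agent.H118.SY
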