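import Mathlib
import Pool.Agent.R347.SX.Main
import Pool.Agent.H118.SY.Bd

set_option autoImplicit false

/-!
# Six exponentials: simultaneous approximation by algebraic numbers of bounded degree
-/

namespace Pool.Agent.H118.SY

open Finset Complex
open Pool.Agent.R347.SX (cf)
open Pool.Agent.R347.LW (RB common_field)
open Pool.Agent.R347.GS (DI)

theorem log_two_ge : (1 : ℝ) / 2 ≤ Real.log 2 := by
  have := Real.log_two_gt_d9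
  linarith

theorem log_ge {H : ℕ} (hH : 2 ≤ H) : (1 : ℝ) / 2 ≤ Real.log H := by
  have h2 : Real.log 2 ≤ Real.log H := Real.log_le_log (by norm_num) (by exact_mod_cast hH)
  linarith [log_two_ge]

theorem natlog_le {H : ℕ} (hH : 2 ≤ H) : ((Nat.log 2 H : ℕ) : ℝ) ≤ 2 * Real.log H := by
  have h1 : 2 ^ Nat.log 2 H ≤ H := Nat.pow_log_le_self 2 (by omega)
  have h2 : ((2 : ℝ) ^ Nat.log 2 H) ≤ H := by exact_mod_cast h1
  have h3 : Real.log ((2 : ℝ) ^ Nat.log 2 H) ≤ Real.log H := Real.log_le_log (by positivity) h2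
  rw [Real.log_pow] at h3
  have h4 : ((Nat.log 2 H : ℕ) : ℝ) * (1 / 2) ≤ (Nat.log 2 H : ℕ) * Real.log 2 :=
    mul_le_mul_of_nonneg_left log_two_ge (by positivity)
  linarith

theorem six_general (s : ℂ) (y : Fin 3 → ℂ) (A₀ m : ℕ) (hA₀ : 1 ≤ A₀)
    (hs : ∀ T : ℕ, 1 ≤ T → ∀ (u : ℤ) (v : ℕ), 1 ≤ v → v ≤ T →
      ((A₀ * T ^ m : ℕ) : ℝ)⁻¹ < ‖s - u / v‖)
    (hy : ∀ T : ℕ, 1 ≤ T → ∀ c : Fin 3 → ℤ, c ≠ 0 → (∀ i, |c i| ≤ T) →
      ((A₀ * T ^ m : ℕ) : ℝ)⁻¹ < ‖∑ i, (c i : ℂ) * y i‖) (d : ℕ) :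
    ∃ C : ℕ, ∀ H : ℕ, 2 ≤ H → ∀ a : Fin 2 × Fin 3 → ℂ, (∀ p, RB d H (a p)) →
      ∃ p, Real.exp (-(C * Real.log H ^ 253)) < ‖exp (cf s p.1 * y p.2) - a p‖ := by
  classical
  obtain ⟨c₁, hc₁⟩ := log_VB
  let v : ℕ → ℕ := fun Y => (A₀ + m * c₁) * Y
  have hv : PB 1 v := ((PB.const (A₀ + m * c₁)).mul PB.id).mono (by norm_num)
  obtain ⟨c, hc⟩ := (PB_PP hv le_rfl).add PB_QQ
  obtain ⟨e, he⟩ : ∃ e, e = 253 := ⟨_, rfl⟩
  rw [show max (252 + 1) 100 = e by rw [he]; rfl] at hc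
  rw [← he]
  obtain ⟨G, hG⟩ : ∃ G, G = (6 * d + 1) ^ (6 * d + 1) := ⟨_, rfl⟩
  obtain ⟨Y₀, hY₀⟩ : ∃ Y₀, Y₀ = G + ⌈‖s‖⌉₊ + ⌈∑ i, ‖y i‖⌉₊ + 2 := ⟨_, rfl⟩
  obtain ⟨K, hK⟩ : ∃ K, K = 2 * Y₀ + 28 := ⟨_, rfl⟩
  refine ⟨c * K ^ e, fun H hH a ha => ?_⟩
  by_contra hcon
  push Not at hcon
  obtain ⟨L, hL1, hL2, hL3, B, D, hB, hD1, hD2, hint, hconj⟩ := common_field d H a ha
  have hcard : Fintype.card (Fin 2 × Fin 3) = 6 := by simp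
  rw [hcard] at hL3 hD2
  rw [← hG] at hL3
  obtain ⟨lam, hlam⟩ : ∃ lam, lam = Nat.log 2 H + 1 := ⟨_, rfl⟩
  have hl1 : H < 2 ^ lam := by rw [hlam]; exact Nat.lt_pow_succ_log_self (by norm_num) H
  have hlR : (lam : ℝ) ≤ 4 * Real.log H := by
    rw [hlam]
    push_cast
    have h1 := natlog_le hH
    have h2 := log_ge hH
    linarith
  set Y : ℕ := Y₀ + 7 * lam with hY
  have hY2 : 2 ≤ Y := by omega
  set V : ℝ := ((A₀ * VB Y ^ m : ℕ) : ℝ) with hV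
  have hV1 : 1 ≤ V := by
    rw [hV]
    exact_mod_cast Nat.mul_pos hA₀ (pow_pos (VB_pos Y) _)
  have hVv : V ≤ 2 ^ v Y := by
    have h1 : A₀ * VB Y ^ m ≤ 2 ^ (v Y) := by
      calc A₀ * VB Y ^ m ≤ 2 ^ (A₀ * Y) * (2 ^ (c₁ * Y)) ^ m := by
            refine Nat.mul_le_mul ?_ (Nat.pow_le_pow_left (hc₁ Y hY2) m)
            exact (Nat.lt_two_pow_self (n := A₀)).le.trans (Nat.pow_le_pow_right (by norm_num)
              (Nat.le_mul_of_pos_right _ (by omega)))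
        _ = 2 ^ (v Y) := by
            rw [← pow_mul, ← pow_add]
            congr 1
            show _ = (A₀ + m * c₁) * Y
            ring
    rw [hV]
    exact_mod_cast h1
  obtain ⟨W, hW⟩ : ∃ W, W = PP Y (v Y) + QQ Y := ⟨_, rfl⟩
  have hcY : W ≤ c * Y ^ e := by
    rw [hW]
    exact hc Y hY2
  have hYR : (Y : ℝ) ≤ K * Real.log H := by
    have h2 := log_ge hH
    have h3 : (Y₀ : ℝ) * (1 / 2) ≤ Y₀ * Real.log H := mul_le_mul_of_nonneg_left h2 (by positivity)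
    rw [hY, hK]
    push_cast
    have h4 : (2 * (Y₀ : ℝ) + 28) * Real.log H = 2 * (Y₀ * Real.log H) + 28 * Real.log H := by ring
    rw [h4]
    linarith
  have hΛ : (W : ℝ) ≤ (c * K ^ e : ℕ) * Real.log H ^ e := by
    calc (W : ℝ) ≤ ((c * Y ^ e : ℕ) : ℝ) := by exact_mod_cast hcY
      _ = (c : ℝ) * (Y : ℝ) ^ e := by push_cast; rfl
      _ ≤ (c : ℝ) * (K * Real.log H) ^ e := by gcongr
      _ = _ := by rw [mul_pow]; push_cast; rw [mul_assoc]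
  have hDY : D ≤ 2 ^ Y := by
    calc D ≤ H ^ 6 := hD2
      _ ≤ (2 ^ lam) ^ 6 := by gcongr
      _ = 2 ^ (lam * 6) := by rw [← pow_mul]
      _ ≤ 2 ^ Y := Nat.pow_le_pow_right (by norm_num) (by omega)
  have hcj : ∀ i, ∀ σ : L ≃ₐ[ℚ] L, ‖((σ (B i) : L) : ℂ)‖ ≤ 2 ^ Y := by
    intro i σ
    refine (hconj i σ).trans ?_
    have h1 : H + 1 ≤ 2 ^ Y := by
      have : 2 ^ lam ≤ 2 ^ Y := Nat.pow_le_pow_right (by norm_num) (by omega)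
      omega
    exact_mod_cast h1
  have hDI : ∀ i, DI D 1 (B i) := by
    intro i
    unfold DI
    rw [pow_one]
    exact hint i
  have hYR' : ((Y₀ : ℕ) : ℝ) ≤ Y := by exact_mod_cast (by omega : Y₀ ≤ Y)
  have c1 := Nat.le_ceil ‖s‖
  have c2 := Nat.le_ceil (∑ i, ‖y i‖)
  have hX₀e : ((Y₀ : ℕ) : ℝ) = G + ⌈‖s‖⌉₊ + ⌈∑ i, ‖y i‖⌉₊ + 2 := by
    rw [hY₀]; push_cast; rfl
  have p0 : (0 : ℝ) ≤ (G : ℝ) := by positivity
  have p1 : (0 : ℝ) ≤ ⌈‖s‖⌉₊ := by positivity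
  have p2 : (0 : ℝ) ≤ ⌈∑ i, ‖y i‖⌉₊ := by positivity
  have hsY : ‖s‖ ≤ Y := by linarith
  have hyY : ∑ i, ‖y i‖ ≤ Y := by linarith
  have hexp : Real.exp (-((c * K ^ e : ℕ) * Real.log H ^ e)) ≤ ((2 : ℝ) ^ W)⁻¹ := by
    rw [Real.exp_neg]
    refine inv_anti₀ (by positivity) ?_
    have h2 : (2 : ℝ) ≤ Real.exp 1 := by
      have := Real.add_one_le_exp (1 : ℝ)
      linarith
    calc (2 : ℝ) ^ W ≤ Real.exp 1 ^ W := by gcongr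
      _ = Real.exp (W : ℝ) := by rw [← Real.exp_nat_mul, mul_one]
      _ ≤ _ := Real.exp_le_exp.2 hΛ
  have hres := six_quant Y (v Y) W V hY2 hV1 hVv hW.ge s y hsY hyY L
    (hL3.trans (by omega)) B D hD1 hDY hDI hcj
    (fun p => by rw [hB]; exact (hcon p).trans hexp)
  rcases hres with ⟨u, w, hv1, hv2, huv⟩ | ⟨g, he0, heB, hes⟩
  · exact absurd huv (not_le.2 (hs (VB Y) (VB_pos Y) u w hv1 hv2))
  · exact absurd hes (not_le.2 (hy (VB Y) (VB_pos Y) g he0 heB))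

end Pool.Agent.H118.SY
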