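import Mathlib
import Pool.Agent.H118.SY.Meas
import Pool.Agent.TH456.TM.E

set_option autoImplicit false

/-!
# Six exponentials whose exponents are multiples of polynomials in a number with a transcendence measure
-/

namespace Pool.Agent.H118.SY

open Finset Complex Polynomial
open Pool.Agent.R347.LW (RB)
open Pool.Agent.R347.SX (cf)
open Pool.Agent.TH456.TM (MeasT)

theorem aeval_comb (x : ℂ) {n : ℕ} (P : Fin n → ℤ[X]) (c : Fin n → ℤ) :
    aeval x (∑ i, C (c i) * P i) = ∑ i, (c i : ℂ) * aeval x (P i) := by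
  rw [map_sum]
  refine Finset.sum_congr rfl fun i _ => ?_
  rw [map_mul, aeval_C]
  simp

theorem comb_ne {n : ℕ} (P : Fin n → ℤ[X]) (hP : LinearIndependent ℤ P) (c : Fin n → ℤ)
    (hc : c ≠ 0) : (∑ i, C (c i) * P i) ≠ 0 := by
  intro h
  apply hc
  funext i
  refine Fintype.linearIndependent_iff.1 hP c ?_ i
  rw [← h]
  refine Finset.sum_congr rfl fun i _ => ?_
  rw [← smul_eq_C_mul]

theorem comb_lower (x : ℂ) (hx : MeasT x) {n : ℕ} (P : Fin n → ℤ[X]) (hP : LinearIndependent ℤ P) :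
    ∃ A m : ℕ, 1 ≤ A ∧ ∀ T : ℕ, 1 ≤ T → ∀ c : Fin n → ℤ, c ≠ 0 → (∀ i, |c i| ≤ T) →
      ((A * T ^ m : ℕ) : ℝ)⁻¹ < ‖∑ i, (c i : ℂ) * aeval x (P i)‖ := by
  classical
  obtain ⟨κ, c₀, hκ, hc₀, h⟩ := hx (Finset.univ.sup fun i => (P i).natDegree)
  obtain ⟨m, hm⟩ := exists_nat_ge κ
  obtain ⟨K, hK⟩ : ∃ K : ℕ, K = ∑ i, ∑ k ∈ (P i).support, ((P i).coeff k).natAbs + 1 := ⟨_, rfl⟩
  have hK1 : 1 ≤ K := by omega
  have hKc : ∀ i k, |((P i).coeff k : ℝ)| ≤ (((P i).coeff k).natAbs : ℝ) := fun i k => by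
    rw [Nat.cast_natAbs, Int.cast_abs]
  obtain ⟨A, hA⟩ := exists_nat_gt ((K : ℝ) ^ m / c₀)
  have hA0 : (0 : ℝ) < A := lt_of_le_of_lt (by positivity) hA
  refine ⟨A, m, by exact_mod_cast hA0, fun T hT c hc hcT => ?_⟩
  have hTR : (1 : ℝ) ≤ T := by exact_mod_cast hT
  have hKR : (1 : ℝ) ≤ K := by exact_mod_cast hK1
  have hdeg : (∑ i, C (c i) * P i).natDegree ≤ Finset.univ.sup fun i => (P i).natDegree := by
    refine natDegree_sum_le_of_forall_le _ _ fun i _ => ?_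
    exact (natDegree_C_mul_le _ _).trans
      (Finset.le_sup (f := fun i => (P i).natDegree) (Finset.mem_univ i))
  have hcoef : ∀ k, |((∑ i, C (c i) * P i).coeff k : ℝ)| ≤ (K : ℝ) * T := by
    intro k
    rw [finsetSum_coeff]
    push_cast
    calc |∑ i, (((C (c i) * P i).coeff k : ℤ) : ℝ)| ≤ ∑ i, |(((C (c i) * P i).coeff k : ℤ) : ℝ)| :=
          Finset.abs_sum_le_sum_abs _ _
      _ ≤ ∑ i, (T : ℝ) * ∑ k ∈ (P i).support, (((P i).coeff k).natAbs : ℝ) := by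
          refine Finset.sum_le_sum fun i _ => ?_
          rw [coeff_C_mul, Int.cast_mul, abs_mul]
          have h1 : |((c i : ℤ) : ℝ)| ≤ T := by exact_mod_cast hcT i
          have h2 : |(((P i).coeff k : ℤ) : ℝ)| ≤ ∑ k ∈ (P i).support, (((P i).coeff k).natAbs : ℝ) := by
            by_cases hk : k ∈ (P i).support
            · exact (hKc i k).trans (Finset.single_le_sum
                (f := fun k => (((P i).coeff k).natAbs : ℝ)) (fun _ _ => by positivity) hk)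
            · rw [notMem_support_iff.1 hk]
              simp only [Int.cast_zero, abs_zero]
              positivity
          exact mul_le_mul h1 h2 (abs_nonneg _) (by positivity)
      _ = (T : ℝ) * ∑ i, ∑ k ∈ (P i).support, (((P i).coeff k).natAbs : ℝ) := by
          rw [Finset.mul_sum]
      _ ≤ (T : ℝ) * K := by
          refine mul_le_mul_of_nonneg_left ?_ (by positivity)
          rw [hK]
          push_cast
          linarith
      _ = _ := by ring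
  have h1 := h _ (comb_ne P hP c hc) hdeg ((K : ℝ) * T) (by nlinarith) hcoef
  rw [aeval_comb] at h1
  have h2 : ((K : ℝ) * T) ^ κ ≤ ((K : ℝ) * T) ^ m := by
    rw [← Real.rpow_natCast]
    exact Real.rpow_le_rpow_of_exponent_le (by nlinarith) hm
  have h3 : c₀ ≤ ((K : ℝ) * T) ^ m * ‖∑ i, (c i : ℂ) * aeval x (P i)‖ :=
    h1.trans (mul_le_mul_of_nonneg_right h2 (norm_nonneg _))
  have hpos : (0 : ℝ) < (A : ℝ) * T ^ m := by positivity
  have hKT : (0 : ℝ) < ((K : ℝ) * T) ^ m := by positivity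
  push_cast
  have h4 : c₀ / ((K : ℝ) * T) ^ m ≤ ‖∑ i, (c i : ℂ) * aeval x (P i)‖ := by
    rw [div_le_iff₀ hKT]
    linarith
  refine lt_of_lt_of_le ?_ h4
  rw [inv_eq_one_div, div_lt_div_iff₀ hpos hKT, one_mul, mul_pow]
  rw [div_lt_iff₀ hc₀] at hA
  have hTm : (0 : ℝ) < (T : ℝ) ^ m := by positivity
  calc (K : ℝ) ^ m * T ^ m < (A * c₀) * T ^ m := mul_lt_mul_of_pos_right hA hTm
    _ = c₀ * (A * T ^ m) := by ring

/-- **Six exponentials.** -/
theorem six_poly (x : ℂ) (hx : MeasT x) (l : ℂ) (hl : l ≠ 0) (Q : Fin 2 → ℤ[X]) (P : Fin 3 → ℤ[X])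
    (hQ : LinearIndependent ℤ Q) (hP : LinearIndependent ℤ P) (d : ℕ) :
    ∃ κ : ℕ, ∀ H : ℕ, 2 ≤ H → ∀ a : Fin 2 → Fin 3 → ℂ, (∀ i j, RB d H (a i j)) →
      ∃ i j, Real.exp (-(κ * Real.log H ^ 253)) <
        ‖exp (l * aeval x (Q i) * aeval x (P j)) - a i j‖ := by
  classical
  obtain ⟨A₁, m₁, hA₁, h₁⟩ := comb_lower x hx Q hQ
  obtain ⟨A₂, m₂, hA₂, h₂⟩ := comb_lower x hx P hP
  have hQ0 : aeval x (Q 0) ≠ 0 := by
    intro h0
    have h3 := h₁ 1 le_rfl (fun i => if i = 0 then 1 else 0) (by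
      intro h
      have := congrFun h 0
      simp at this) (fun i => by split_ifs <;> simp)
    rw [Fin.sum_univ_two] at h3
    simp [h0] at h3
    have : (0 : ℝ) < (A₁ : ℝ)⁻¹ := by positivity
    linarith
  obtain ⟨q₀, hq₀⟩ : ∃ q₀, q₀ = aeval x (Q 0) := ⟨_, rfl⟩
  obtain ⟨q₁, hq₁⟩ : ∃ q₁, q₁ = aeval x (Q 1) := ⟨_, rfl⟩
  rw [← hq₀] at hQ0
  have hn0 : 0 < ‖q₀‖ := norm_pos_iff.2 hQ0
  obtain ⟨s, hs⟩ : ∃ s, s = q₁ / q₀ := ⟨_, rfl⟩
  obtain ⟨K, hK⟩ := exists_nat_ge (‖s‖ + 1)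
  have hK1 : 1 ≤ K := by
    have : (1 : ℝ) ≤ K := by linarith [norm_nonneg s]
    exact_mod_cast this
  obtain ⟨B₁, hB₁⟩ := exists_nat_gt ((A₁ : ℝ) * K ^ m₁ * ‖q₀‖ + 1)
  obtain ⟨B₂, hB₂⟩ := exists_nat_gt ((A₂ : ℝ) / ‖l * q₀‖)
  have hlq : 0 < ‖l * q₀‖ := norm_pos_iff.2 (mul_ne_zero hl hQ0)
  have hB1R : (1 : ℝ) < B₁ := by
    have : (0 : ℝ) ≤ (A₁ : ℝ) * K ^ m₁ * ‖q₀‖ := by positivity
    linarith
  have hmono : ∀ (B m T : ℕ), 1 ≤ T → B ≤ B₁ + B₂ → m ≤ m₁ + 1 + m₂ → 1 ≤ B →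
      (((B₁ + B₂) * T ^ (m₁ + 1 + m₂) : ℕ) : ℝ)⁻¹ ≤ ((B : ℝ) * (T : ℝ) ^ m)⁻¹ := by
    intro B m T hT hB hm hB1
    have hTR : (1 : ℝ) ≤ T := by exact_mod_cast hT
    have hBR : (1 : ℝ) ≤ B := by exact_mod_cast hB1
    refine inv_anti₀ (by positivity) ?_
    push_cast
    have h3 : (B : ℝ) ≤ B₁ + B₂ := by exact_mod_cast hB
    have h4 : (T : ℝ) ^ m ≤ (T : ℝ) ^ (m₁ + 1 + m₂) := pow_le_pow_right₀ hTR hm
    gcongr
  have hB1N : 1 ≤ B₁ := by exact_mod_cast hB1R.le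
  have hB2N : 1 ≤ B₂ := by
    have : (0 : ℝ) < B₂ := lt_of_le_of_lt (by positivity) hB₂
    exact_mod_cast this
  obtain ⟨κ, hκ⟩ := six_general s (fun j => l * q₀ * aeval x (P j)) (B₁ + B₂) (m₁ + 1 + m₂)
    (by omega) (fun T hT u v hv hvT => by
      have hTR : (1 : ℝ) ≤ T := by exact_mod_cast hT
      have hvR : (1 : ℝ) ≤ v := by exact_mod_cast hv
      have hvTR : (v : ℝ) ≤ T := by exact_mod_cast hvT
      have hv0 : (v : ℂ) ≠ 0 := by exact_mod_cast (by omega : v ≠ 0)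
      refine lt_of_le_of_lt (hmono B₁ (m₁ + 1) T hT (by omega) (by omega) hB1N) ?_
      by_cases hu : |(u : ℝ)| ≤ K * T
      · have h3 := h₁ (K * T) (Nat.mul_pos hK1 hT) (fun i => if i = 0 then -u else (v : ℤ)) (by
          intro h
          have := congrFun h 1
          simp at this
          omega) (fun i => by
          split_ifs with hi
          · rw [abs_neg]
            push_cast
            exact_mod_cast hu
          · rw [Nat.abs_cast]
            have : v ≤ K * T := hvT.trans (Nat.le_mul_of_pos_left _ hK1)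
            exact_mod_cast this)
        rw [Fin.sum_univ_two] at h3
        simp only [if_true, Fin.one_eq_zero_iff, OfNat.ofNat_ne_one, if_false] at h3
        rw [← hq₀, ← hq₁] at h3
        have h4 : ((-u : ℤ) : ℂ) * q₀ + ((v : ℤ) : ℂ) * q₁ = (s - u / v) * (v * q₀) := by
          rw [hs]
          push_cast
          field_simp
          ring
        rw [h4, norm_mul, norm_mul, Complex.norm_natCast] at h3
        have h5 : ‖s - u / v‖ * (v * ‖q₀‖) ≤ ‖s - u / v‖ * (T * ‖q₀‖) := by gcongr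
        have h6 : (((A₁ * (K * T) ^ m₁ : ℕ) : ℝ))⁻¹ < ‖s - u / v‖ * (T * ‖q₀‖) := h3.trans_le h5
        push_cast at h6
        have h7 : (((A₁ : ℝ) * (K * T) ^ m₁))⁻¹ / (T * ‖q₀‖) < ‖s - u / v‖ := by
          rw [div_lt_iff₀ (by positivity)]
          exact h6
        refine lt_of_le_of_lt ?_ h7
        rw [inv_eq_one_div, inv_eq_one_div, div_div]
        refine one_div_le_one_div_of_le (by positivity) ?_
        calc (A₁ : ℝ) * (K * T) ^ m₁ * (T * ‖q₀‖) = (A₁ * K ^ m₁ * ‖q₀‖) * T ^ (m₁ + 1) := by ring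
          _ ≤ B₁ * T ^ (m₁ + 1) := by
              refine mul_le_mul_of_nonneg_right ?_ (by positivity)
              linarith
      · push Not at hu
        have h3 : (K : ℝ) < |(u : ℝ) / v| := by
          rw [abs_div, abs_of_pos (by linarith : (0 : ℝ) < v), lt_div_iff₀ (by linarith)]
          have : (K : ℝ) * v ≤ K * T := by gcongr
          linarith
        have h4 : ‖((u : ℂ) / v)‖ = |(u : ℝ) / v| := by
          rw [norm_div, Complex.norm_intCast, Complex.norm_natCast, abs_div, Nat.abs_cast]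
        have h5 : ‖((u : ℂ) / v)‖ ≤ ‖s - u / v‖ + ‖s‖ := by
          have h6 : (u : ℂ) / v = -(s - u / v) + s := by ring
          calc ‖((u : ℂ) / v)‖ = ‖-(s - u / v) + s‖ := by rw [← h6]
            _ ≤ ‖-(s - u / v)‖ + ‖s‖ := norm_add_le _ _
            _ = _ := by rw [norm_neg]
        have h6 : 1 < ‖s - u / v‖ := by linarith
        refine lt_of_le_of_lt ?_ h6
        refine inv_le_one_of_one_le₀ ?_
        have : (1 : ℝ) ≤ (T : ℝ) ^ (m₁ + 1) := one_le_pow₀ hTR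
        nlinarith)
    (fun T hT c hc hcT => by
      have hTR : (1 : ℝ) ≤ T := by exact_mod_cast hT
      refine lt_of_le_of_lt (hmono B₂ m₂ T hT (by omega) (by omega) hB2N) ?_
      have h3 := h₂ T hT c hc hcT
      have h4 : ∑ i, (c i : ℂ) * (l * q₀ * aeval x (P i)) =
          l * q₀ * ∑ i, (c i : ℂ) * aeval x (P i) := by
        rw [Finset.mul_sum]
        refine Finset.sum_congr rfl fun i _ => ?_
        ring
      rw [h4, norm_mul]
      push_cast at h3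
      have h5 : ‖l * q₀‖ * ((A₂ : ℝ) * T ^ m₂)⁻¹ < ‖l * q₀‖ * ‖∑ i, (c i : ℂ) * aeval x (P i)‖ :=
        mul_lt_mul_of_pos_left h3 hlq
      refine lt_of_le_of_lt ?_ h5
      rw [div_lt_iff₀ hlq] at hB₂
      rw [← div_eq_mul_inv, inv_eq_one_div, div_le_div_iff₀ (by positivity) (by positivity), one_mul]
      have hTm : (0 : ℝ) ≤ (T : ℝ) ^ m₂ := by positivity
      calc (A₂ : ℝ) * T ^ m₂ ≤ (B₂ * ‖l * q₀‖) * T ^ m₂ := mul_le_mul_of_nonneg_right hB₂.le hTm
        _ = _ := by ring) d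
  refine ⟨κ, fun H hH a ha => ?_⟩
  obtain ⟨⟨i, j⟩, hp⟩ := hκ H hH (fun p => a p.1 p.2) (fun p => ha p.1 p.2)
  refine ⟨i, j, ?_⟩
  convert hp using 4
  unfold cf
  split_ifs with hi
  · simp only at hi
    rw [hi, ← hq₀]
    ring
  · have hi1 : i = 1 := by
      simp only at hi
      omega
    simp only
    rw [hi1, ← hq₁, hs]
    field_simp

end Pool.Agent.H118.SY
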