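import Mathlib
import Pool.Agent.H118.SY.Poly

set_option autoImplicit false

/-!
# Counting the well approximable numbers `exp (l x ^ n)`
-/

namespace Pool.Agent.H118.SY

open Finset Complex Polynomial
open Pool.Agent.R347.LW (RB)
open Pool.Agent.TH456.TM (MeasT)

/-- `z` is very close to an algebraic number of degree at most `d` and height at most `H` -/
def Nr (d κ H : ℕ) (z : ℂ) : Prop := ∃ a, RB d H a ∧ ‖z - a‖ ≤ Real.exp (-(κ * Real.log H ^ 253))

theorem Nr.mono {d κ κ' H : ℕ} {z : ℂ} (hH : 2 ≤ H) (hκ : κ ≤ κ') (h : Nr d κ' H z) : Nr d κ H z := by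
  obtain ⟨a, ha, hz⟩ := h
  refine ⟨a, ha, hz.trans (Real.exp_le_exp.2 (neg_le_neg ?_))⟩
  have h0 : 0 ≤ Real.log H := Real.log_natCast_nonneg H
  exact mul_le_mul_of_nonneg_right (by exact_mod_cast hκ) (pow_nonneg h0 _)

theorem six_near (x : ℂ) (hx : MeasT x) (l : ℂ) (hl : l ≠ 0) (Q : Fin 2 → ℤ[X]) (P : Fin 3 → ℤ[X])
    (hQ : LinearIndependent ℤ Q) (hP : LinearIndependent ℤ P) (d : ℕ) :
    ∃ κ : ℕ, ∀ H : ℕ, 2 ≤ H → ∃ i j, ¬ Nr d κ H (exp (l * aeval x (Q i) * aeval x (P j))) := by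
  obtain ⟨κ, hκ⟩ := six_poly x hx l hl Q P hQ hP d
  refine ⟨κ, fun H hH => ?_⟩
  by_contra hcon
  push Not at hcon
  choose a ha hza using hcon
  obtain ⟨i, j, hij⟩ := hκ H hH a ha
  exact absurd (hza i j) (not_le.2 hij)

theorem X_indep {n : ℕ} (f : Fin n → ℕ) (hf : Function.Injective f) :
    LinearIndependent ℤ (fun i => (X ^ f i : ℤ[X])) := by
  classical
  rw [Fintype.linearIndependent_iff]
  intro g hg i
  have h := congrArg (fun p : ℤ[X] => p.coeff (f i)) hg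
  simp only [finsetSum_coeff, coeff_zero] at h
  rw [Finset.sum_eq_single i] at h
  · rw [zsmul_eq_mul, ← C_eq_intCast, coeff_C_mul, coeff_X_pow, if_pos rfl, mul_one] at h
    exact h
  · intro j _ hj
    rw [zsmul_eq_mul, ← C_eq_intCast, coeff_C_mul, coeff_X_pow, if_neg (fun h0 => hj (hf h0).symm),
      mul_zero]
  · intro h0
    exact absurd (Finset.mem_univ i) h0

/-- sets of integers in which every difference occurs at most twice -/
theorem count_diff (N : ℕ) (T : Finset ℕ) (hT : ∀ n ∈ T, n < N)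
    (h : ∀ k, 1 ≤ k → ∀ f : Fin 3 → ℕ, Function.Injective f → ¬ ∀ i, f i ∈ T ∧ f i + k ∈ T) :
    T.card * T.card - T.card ≤ 4 * (N - 1) := by
  classical
  rw [← Finset.offDiag_card]
  obtain ⟨M, hM⟩ : ∃ M, M = N - 1 := ⟨_, rfl⟩
  rw [← hM]
  have hmaps : ∀ p ∈ T.offDiag, (p.2 : ℤ) - p.1 ∈ (Finset.Icc (-(M : ℤ)) M).erase 0 := by
    rintro ⟨n, n'⟩ hp
    rw [Finset.mem_offDiag] at hp
    obtain ⟨hp1, hp2, hp3⟩ := hp
    simp only at hp1 hp2 hp3 ⊢
    rw [Finset.mem_erase, Finset.mem_Icc]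
    have h1 := hT n hp1
    have h2 := hT n' hp2
    exact ⟨fun h0 => hp3 (by omega), by omega, by omega⟩
  have hfib : ∀ d ∈ (Finset.Icc (-(M : ℤ)) M).erase 0,
      (T.offDiag.filter (fun p => (p.2 : ℤ) - p.1 = d)).card ≤ 2 := by
    intro d hd
    rw [Finset.mem_erase] at hd
    by_contra hcon
    push Not at hcon
    obtain ⟨x, y, z, hx, hy, hz, hxy, hxz, hyz⟩ := Finset.two_lt_card_iff.1 hcon
    rw [Finset.mem_filter, Finset.mem_offDiag] at hx hy hz
    obtain ⟨⟨x1, x2, -⟩, x3⟩ := hx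
    obtain ⟨⟨y1, y2, -⟩, y3⟩ := hy
    obtain ⟨⟨z1, z2, -⟩, z3⟩ := hz
    have hne : ∀ u v : ℕ × ℕ, (u.2 : ℤ) - u.1 = d → (v.2 : ℤ) - v.1 = d → u ≠ v →
        u.1 ≠ v.1 ∧ u.2 ≠ v.2 := by
      intro u v hu hv huv
      exact ⟨fun h0 => huv (Prod.ext h0 (by omega)), fun h0 => huv (Prod.ext (by omega) h0)⟩
    have a1 := hne x y x3 y3 hxy
    have a2 := hne x z x3 z3 hxz
    have a3 := hne y z y3 z3 hyz
    rcases lt_or_gt_of_ne hd.1 with hd0 | hd0
    · refine h (-d).toNat (by omega) ![x.2, y.2, z.2] ?_ ?_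
      · intro i j hij
        fin_cases i <;> fin_cases j <;> simp_all
      · have e1 : x.2 + (-d).toNat = x.1 := by omega
        have e2 : y.2 + (-d).toNat = y.1 := by omega
        have e3 : z.2 + (-d).toNat = z.1 := by omega
        intro i
        fin_cases i
        · exact ⟨x2, by simpa [e1] using x1⟩
        · exact ⟨y2, by simpa [e2] using y1⟩
        · exact ⟨z2, by simpa [e3] using z1⟩
    · refine h d.toNat (by omega) ![x.1, y.1, z.1] ?_ ?_
      · intro i j hij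
        fin_cases i <;> fin_cases j <;> simp_all
      · have e1 : x.1 + d.toNat = x.2 := by omega
        have e2 : y.1 + d.toNat = y.2 := by omega
        have e3 : z.1 + d.toNat = z.2 := by omega
        intro i
        fin_cases i
        · exact ⟨x1, by simpa [e1] using x2⟩
        · exact ⟨y1, by simpa [e2] using y2⟩
        · exact ⟨z1, by simpa [e3] using z2⟩
  have hcard : ((Finset.Icc (-(M : ℤ)) M).erase 0).card = 2 * M := by
    rw [Finset.card_erase_of_mem (by rw [Finset.mem_Icc]; omega), Int.card_Icc]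
    omega
  calc T.offDiag.card ≤ 2 * ((Finset.Icc (-(M : ℤ)) M).erase 0).card :=
        Finset.card_le_mul_card_image_of_maps_to hmaps 2 hfib
    _ = 4 * M := by rw [hcard]; ring

/-- **The count.** -/
theorem count_near (x : ℂ) (hx : MeasT x) (l : ℂ) (hl : l ≠ 0) (d N : ℕ) :
    ∃ κ : ℕ, ∀ H : ℕ, 2 ≤ H → ∀ T : Finset ℕ, (∀ n ∈ T, n < N) →
      (∀ n ∈ T, Nr d κ H (exp (l * x ^ n))) → T.card * T.card - T.card ≤ 4 * (N - 1) := by
  classical
  have key : ∀ k : ℕ, 1 ≤ k → ∀ f : Fin 3 → ℕ, Function.Injective f → ∃ κ : ℕ, ∀ H : ℕ, 2 ≤ H →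
      ∃ i, ¬ (Nr d κ H (exp (l * x ^ (f i))) ∧ Nr d κ H (exp (l * x ^ (f i + k)))) := by
    intro k hk f hf
    obtain ⟨κ, hκ⟩ := six_near x hx l hl (fun i => X ^ (![0, k] i)) (fun j => X ^ f j)
      (X_indep _ (by
        intro i j hij
        fin_cases i <;> fin_cases j <;> simp at hij ⊢ <;> omega)) (X_indep _ hf) d
    refine ⟨κ, fun H hH => ?_⟩
    obtain ⟨i, j, hij⟩ := hκ H hH
    refine ⟨j, fun h => hij ?_⟩
    have h2 : ∀ m, aeval x (X ^ m : ℤ[X]) = x ^ m := fun m => by simp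
    rw [h2, h2, mul_assoc, ← pow_add]
    fin_cases i
    · simpa using h.1
    · have e : (![0, k] (1 : Fin 2) + f j) = f j + k := by simp [add_comm]
      show Nr d κ H (exp (l * x ^ (![0, k] (1 : Fin 2) + f j)))
      rw [e]
      exact h.2
  have key2 : ∀ p : Fin (N + 1) × (Fin 3 → Fin (N + 1)), ∃ κ : ℕ, ∀ H : ℕ, 2 ≤ H →
      1 ≤ (p.1 : ℕ) → Function.Injective p.2 →
      ∃ i, ¬ (Nr d κ H (exp (l * x ^ (p.2 i : ℕ))) ∧ Nr d κ H (exp (l * x ^ ((p.2 i : ℕ) + p.1)))) := by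
    intro p
    by_cases h : 1 ≤ (p.1 : ℕ) ∧ Function.Injective p.2
    · obtain ⟨κ, hκ⟩ := key p.1 h.1 (fun i => (p.2 i : ℕ)) (fun i j hij => h.2 (Fin.ext hij))
      exact ⟨κ, fun H hH _ _ => hκ H hH⟩
    · exact ⟨0, fun H hH h1 h2 => absurd ⟨h1, h2⟩ h⟩
  choose κ hκ using key2
  refine ⟨Finset.univ.sup κ, fun H hH T hTN hT => ?_⟩
  refine count_diff N T hTN ?_
  intro k hk f hf hall
  have hfN : ∀ i, f i < N + 1 := fun i => by
    have := hTN _ (hall i).1
    omega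
  have hkN : k < N + 1 := by
    have := hTN _ (hall 0).2
    omega
  obtain ⟨i, hi⟩ := hκ (⟨k, hkN⟩, fun i => ⟨f i, hfN i⟩) H hH hk (fun i j hij => hf (by
    simpa using hij))
  apply hi
  have hle : κ (⟨k, hkN⟩, fun i => ⟨f i, hfN i⟩) ≤ Finset.univ.sup κ :=
    Finset.le_sup (f := κ) (Finset.mem_univ _)
  exact ⟨(hT _ (hall i).1).mono hH hle, (hT _ (hall i).2).mono hH hle⟩

end Pool.Agent.H118.SY
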