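import Pool.Agent.R347.GS.Vanish
import Pool.Agent.H118.SY.Num
import Pool.Agent.R347.SX.Fam

/-!
# The auxiliary polynomial for the six exponentials theorem
-/

set_option autoImplicit false

namespace Pool.Agent.H118.SY

open Finset Complex
open Pool.Agent.R347.SX (xx ex cf fn pt val box mem_box box_mono card_box fn_diff fn_pt xx_le sum_ex_le
  prod_pow_sub apx DI.prod val_DI val_conj val_coe fn_le)
open Pool.Agent.R347.GS (DI DI.mono DI.mul DI.pow DI.add DI.int DI.sum two_aux core liouville)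

def PP (Y v : ℕ) : ℕ :=
  10 + 4 * tt Y + EE Y + (4 + Y + tt Y + v) * Tf Y ^ 3 + lam Y (Tf Y)

def QQ (Y : ℕ) : ℕ :=
  3 + 2 * tt Y + (2 * Y ^ 2 + 2 * Y) * (6 * (Tf Y * DD Y))

theorem lam_mono (Y : ℕ) {T T' : ℕ} (h : T ≤ T') : lam Y T ≤ lam Y T' := by
  unfold lam hh
  gcongr

theorem start_eq (Y : ℕ) : 3 + tt Y + gam Y (SS Y) + lam Y (SS Y) = EE Y * (Y + 1) := by
  have h : lam Y (SS Y) = Y ^ 2 * (6 * SS Y * DD Y) + Y * (tt Y + hh Y (SS Y)) + Y * EE Y := by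
    unfold lam; ring
  rw [h]
  have h2 : EE Y = 3 + tt Y + gam Y (SS Y) + Y ^ 2 * (6 * SS Y * DD Y) +
    Y * (tt Y + hh Y (SS Y)) := rfl
  calc 3 + tt Y + gam Y (SS Y) + (Y ^ 2 * (6 * SS Y * DD Y) + Y * (tt Y + hh Y (SS Y)) +
        Y * EE Y) = (3 + tt Y + gam Y (SS Y) + Y ^ 2 * (6 * SS Y * DD Y) +
    Y * (tt Y + hh Y (SS Y))) + Y * EE Y := by ring
    _ = EE Y + Y * EE Y := by rw [← h2]
    _ = _ := by ring

theorem DD_le_Tf (Y : ℕ) : DD Y ≤ Tf Y := by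
  have h2 : DD Y ≤ DD Y ^ 6 := Nat.le_self_pow (by norm_num) (DD Y)
  unfold Tf
  omega

theorem DD2_le_Tf (Y : ℕ) : DD Y * DD Y ≤ Tf Y := by
  have h2 : DD Y * DD Y ≤ DD Y ^ 6 := by
    rw [← pow_two]
    exact Nat.pow_le_pow_right (DD_pos Y) (by norm_num)
  unfold Tf
  omega

/-- **The auxiliary polynomial.** -/
theorem vanish (Y v Λ : ℕ) (V : ℝ) (hY : 2 ≤ Y) (hV : 1 ≤ V)
    (hVp : V ≤ 2 ^ v) (hΛ : PP Y v + QQ Y ≤ Λ) (s : ℂ) (y : Fin 3 → ℂ)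
    (hs : ‖s‖ ≤ Y) (hy : ∑ m, ‖y m‖ ≤ Y) (L : IntermediateField ℚ ℂ) [FiniteDimensional ℚ L] [IsGalois ℚ L]
    (hg : Fintype.card (L ≃ₐ[ℚ] L) ≤ Y) (A : Fin 2 × Fin 3 → L) (D : ℕ) (hD : 1 ≤ D) (hD2 : D ≤ 2 ^ Y)
    (hA : ∀ p, DI D 1 (A p)) (cA : ∀ p, ∀ σ : L ≃ₐ[ℚ] L, ‖((σ (A p) : L) : ℂ)‖ ≤ 2 ^ Y)
    (e : ∀ p : Fin 2 × Fin 3, ‖exp (cf s p.1 * y p.2) - A p‖ ≤ ((2 : ℝ) ^ Λ)⁻¹)
    (hsep : ∀ a ∈ box (Tf Y), ∀ a' ∈ box (Tf Y), a ≠ a' → (V : ℝ)⁻¹ ≤ ‖pt y a - pt y a'‖) :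
    ∃ p : Fin (DD Y) × Fin (DD Y) → ℤ, p ≠ 0 ∧
      ∀ a ∈ box (Tf Y), ∑ x, (p x : ℂ) * val (fun p => ((A p : L) : ℂ)) a x = 0 := by
  have hV0 : (0 : ℝ) < V := by linarith
  have hY1 : (1 : ℝ) ≤ Y := by exact_mod_cast (by omega : 1 ≤ Y)
  have hY0 : (0 : ℝ) ≤ Y := by positivity
  have hYp : (Y : ℝ) ≤ 2 ^ Y := by exact_mod_cast (Nat.lt_two_pow_self (n := Y)).le
  have hTf : ((Tf Y : ℕ) : ℝ) ≤ 2 ^ tt Y := by exact_mod_cast Tf_le Y hY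
  have hTle : ∀ T : ℕ, T ≤ Tf Y → (T : ℝ) ≤ 2 ^ tt Y := fun T hT =>
    le_trans (by exact_mod_cast hT) hTf
  have hcardn : (Fintype.card (Fin (DD Y) × Fin (DD Y)) : ℝ) ≤ 2 ^ tt Y := by
    rw [Fintype.card_prod, Fintype.card_fin]
    exact hTle _ (DD2_le_Tf Y)
  have hcf : ∀ c : Fin 2, ‖cf s c‖ ≤ Y := by
    intro c
    unfold cf
    split
    · rw [norm_one]; exact hY1
    · exact hs
  have hym : ∀ m, ‖y m‖ ≤ Y := fun m =>
    (single_le_sum (f := fun m => ‖y m‖) (fun _ _ => norm_nonneg _) (mem_univ m)).trans hy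
  have hpt : ∀ T, 1 ≤ T → ∀ a ∈ box (T + 1), ‖pt y a‖ ≤ Y * T := by
    intro T hT a ha
    have := mem_box.1 ha
    unfold pt
    refine (norm_sum_le _ _).trans ?_
    calc ∑ m, ‖(a m : ℂ) * y m‖ ≤ ∑ m, T * ‖y m‖ := by
          refine sum_le_sum fun m _ => ?_
          rw [norm_mul, Complex.norm_natCast]
          have : (a m : ℝ) ≤ T := by exact_mod_cast Nat.lt_succ_iff.1 (this m)
          exact mul_le_mul_of_nonneg_right this (norm_nonneg _)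
      _ = T * ∑ m, ‖y m‖ := by rw [mul_sum]
      _ ≤ T * Y := mul_le_mul_of_nonneg_left hy (by positivity)
      _ = _ := mul_comm _ _
  have hgrow : ∀ T, 1 ≤ T → T ≤ Tf Y → ∀ (x : Fin (DD Y) × Fin (DD Y)) (w : ℂ),
      ‖w‖ ≤ 5 * (Y * T) → ‖fn s x w‖ ≤ 2 ^ gam Y T := by
    intro T hT hT2 x w hw
    have h1 := fn_le (d := DD Y) s Y (5 * Y * T) hs (by omega) x w (by push_cast; linarith)
    refine h1.trans (le_of_eq ?_)
    congr 1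
    unfold gam
    ring
  set η : ℝ := ((2 : ℝ) ^ PP Y v)⁻¹ with hη
  have hη0 : 0 ≤ η := by positivity
  have nXη : ∀ c : ℕ, tt Y + EE Y + c ≤ PP Y v →
      (Fintype.card (Fin (DD Y) × Fin (DD Y)) : ℝ) * ((2 ^ EE Y : ℕ) : ℝ) * η ≤ ((2 : ℝ) ^ c)⁻¹ := by
    intro c hc
    refine le_trans ?_ (two_aux hc)
    rw [pow_add]
    push_cast
    gcongr
  refine core (Λ := Fin (DD Y) × Fin (DD Y)) (A := Fin 3 → ℕ) (fn s) (fun x => fn_diff s x) (pt y)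
    (fun a x => val (fun p => ((A p : L) : ℂ)) a x) box box_mono (SS Y) (Tf Y) (SS_le Y) ?_ (Y + 2)
    (2 ^ EE Y) (by omega) Nat.one_le_two_pow ?_ (2 ^ gam Y (SS Y)) (by positivity) ?_ η (V : ℝ)⁻¹ hη0
    (by positivity) (inv_le_one_of_one_le₀ hV) (fun T => Y * T)
    (fun T => 2 ^ gam Y T) (fun T => ((2 : ℝ) ^ lam Y T)⁻¹) ?_ ?_ ?_ ?_ hsep ?_ ?_ ?_
  · exact ⟨fun _ => 0, mem_box.2 fun _ => SS_pos Y⟩
  · rw [Fintype.card_prod, Fintype.card_fin, card_box]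
    unfold DD SS
    ring
  · intro a ha x
    have h1 := SS_pos Y
    refine hgrow (SS Y) h1 (SS_le Y) x _ ?_
    refine (hpt (SS Y) h1 a (box_mono (Nat.le_succ _) ha)).trans ?_
    have : (0 : ℝ) ≤ Y * (SS Y : ℝ) := by positivity
    linarith
  · intro T hT
    have h1 : (1 : ℝ) ≤ T := by exact_mod_cast (SS_pos Y).trans hT
    nlinarith
  · intro T hT _ a ha
    exact hpt T ((SS_pos Y).trans hT) a ha
  · intro T hT hT2 x w hw
    exact hgrow T ((SS_pos Y).trans hT) hT2.le x w hw.le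
  · intro a ha x
    have hB : (1 : ℝ) ≤ 2 ^ (2 * Y ^ 2 + 2 * Y) := one_le_pow₀ (by norm_num)
    have hpw : ∀ c : ℕ, c ≤ 2 * Y ^ 2 + 2 * Y → (2 : ℝ) ^ c ≤ 2 ^ (2 * Y ^ 2 + 2 * Y) := fun c hc =>
      pow_le_pow_right₀ (by norm_num) hc
    have one_app : ∀ (c : L), ((((1 : L ≃ₐ[ℚ] L) c : L)) : ℂ) = (c : ℂ) := fun _ => rfl
    have h1 := apx (d := DD Y) (Tf Y) s y (fun p => ((A p : L) : ℂ)) (2 ^ (2 * Y ^ 2 + 2 * Y))
      (((2 : ℝ) ^ Λ)⁻¹) hB (by positivity)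
      (fun p => by
        refine (norm_exp_le_exp_norm _).trans ?_
        have : ‖cf s p.1 * y p.2‖ ≤ ((Y ^ 2 : ℕ) : ℝ) := by
          rw [norm_mul]
          push_cast
          rw [pow_two]
          exact mul_le_mul (hcf _) (hym _) (norm_nonneg _) (by positivity)
        refine (Real.exp_le_exp.2 this).trans ((Pool.Agent.R347.GS.exp_le_two_pow (Y ^ 2)).trans
          (hpw _ ?_))
        omega)
      (fun p => by have := cA p 1; rw [one_app] at this; exact this.trans (hpw _ (by omega)))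
      e a ha x
    refine h1.trans ?_
    have h2 : ((6 * (Tf Y * DD Y) : ℕ) : ℝ) ≤ 2 ^ (3 + 2 * tt Y) := by
      push_cast
      have hD1n : ((DD Y : ℕ) : ℝ) ≤ 2 ^ tt Y := hTle _ (DD_le_Tf Y)
      calc (6 : ℝ) * ((Tf Y : ℝ) * (DD Y : ℝ)) ≤ 2 ^ 3 * (2 ^ tt Y * 2 ^ tt Y) := by
            gcongr
            norm_num
        _ = 2 ^ (3 + 2 * tt Y) := by rw [pow_add, two_mul, pow_add]
    calc ((6 * (Tf Y * DD Y) : ℕ) : ℝ) * (2 ^ (2 * Y ^ 2 + 2 * Y)) ^ (6 * (Tf Y * DD Y)) *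
          ((2 : ℝ) ^ Λ)⁻¹
        ≤ 2 ^ (3 + 2 * tt Y) * 2 ^ ((2 * Y ^ 2 + 2 * Y) * (6 * (Tf Y * DD Y))) *
          ((2 : ℝ) ^ Λ)⁻¹ := by rw [← pow_mul]; gcongr
      _ = 2 ^ QQ Y * ((2 : ℝ) ^ Λ)⁻¹ := by rw [← pow_add]; rfl
      _ ≤ η := two_aux (by omega)
  · intro T hT hT2 p hp a ha hne
    have hT1 : 1 ≤ T := (SS_pos Y).trans hT
    set w : L := ∑ x, (p x : L) * val A a x with hv
    have hvC : (w : ℂ) = ∑ x, (p x : ℂ) * val (fun p => ((A p : L) : ℂ)) a x := by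
      rw [hv]
      push_cast
      exact sum_congr rfl fun x _ => by rw [val_coe]
    have hv0 : w ≠ 0 := by
      intro h
      apply hne
      rw [← hvC, h]
      rfl
    have hvDI : DI D (6 * (T * DD Y)) w := DI.sum _ _ fun x _ => by
      have := (DI.int (L := L) D 0 (p x)).mul (val_DI D T A hA a ha x)
      rwa [zero_add] at this
    have hcon : ∀ σ : L ≃ₐ[ℚ] L, ‖((σ w : L) : ℂ)‖ ≤ 2 ^ (tt Y + EE Y + hh Y T) := by
      intro σ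
      have e : ((σ w : L) : ℂ) = ∑ x, (p x : ℂ) * ((σ (val A a x) : L) : ℂ) := by
        rw [hv, map_sum]
        push_cast
        refine sum_congr rfl fun x _ => ?_
        rw [map_mul, map_intCast]
        push_cast
        rfl
      rw [e]
      refine (norm_sum_le _ _).trans ?_
      have hterm : ∀ x : Fin (DD Y) × Fin (DD Y), ‖(p x : ℂ) * ((σ (val A a x) : L) : ℂ)‖ ≤
          2 ^ EE Y * 2 ^ hh Y T := by
        intro x
        rw [norm_mul, norm_intCast]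
        have h1 : |(p x : ℝ)| ≤ 2 ^ EE Y := by exact_mod_cast hp x
        have h2 := val_conj (d := DD Y) T A (2 ^ Y) (one_le_pow₀ (by norm_num)) σ
          (fun p => cA p σ) a ha x
        have h4 : ((2 : ℝ) ^ Y) ^ (6 * (T * DD Y)) = 2 ^ hh Y T := by
          rw [← pow_mul]; congr 1; unfold hh; ring
        rw [h4] at h2
        exact mul_le_mul h1 h2 (norm_nonneg _) (by positivity)
      calc ∑ x, ‖(p x : ℂ) * ((σ (val A a x) : L) : ℂ)‖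
          ≤ ∑ _x : Fin (DD Y) × Fin (DD Y), 2 ^ EE Y * 2 ^ hh Y T := sum_le_sum fun x _ => hterm x
        _ = (Fintype.card (Fin (DD Y) × Fin (DD Y)) : ℝ) * (2 ^ EE Y * 2 ^ hh Y T) := by
            rw [sum_const, card_univ, nsmul_eq_mul]
        _ ≤ 2 ^ tt Y * (2 ^ EE Y * 2 ^ hh Y T) := by gcongr
        _ = _ := by rw [← pow_add, ← pow_add]; congr 1; ring
    have h1 := liouville L D (6 * (T * DD Y)) _ rfl w hvDI hv0 (2 ^ (tt Y + EE Y + hh Y T))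
      (one_le_pow₀ (by norm_num)) hcon hD
    rw [← hvC]
    rw [inv_le_iff_one_le_mul₀ (by positivity)]
    refine h1.trans ?_
    rw [mul_comm]
    refine mul_le_mul_of_nonneg_left ?_ (norm_nonneg _)
    have hDm : ((D : ℝ) ^ (6 * (T * DD Y))) ≤ 2 ^ (Y * (6 * T * DD Y)) := by
      rw [pow_mul 2 Y]
      have e : 6 * (T * DD Y) = 6 * T * DD Y := by ring
      rw [e]
      exact pow_le_pow_left₀ (by positivity) (by exact_mod_cast hD2) _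
    calc ((D : ℝ) ^ (6 * (T * DD Y)) * 2 ^ (tt Y + EE Y + hh Y T)) ^ Fintype.card (L ≃ₐ[ℚ] L)
        ≤ (2 ^ (Y * (6 * T * DD Y)) * 2 ^ (tt Y + EE Y + hh Y T)) ^
          Fintype.card (L ≃ₐ[ℚ] L) := by gcongr
      _ ≤ (2 ^ (Y * (6 * T * DD Y)) * 2 ^ (tt Y + EE Y + hh Y T)) ^ Y := by
          refine pow_le_pow_right₀ ?_ hg
          rw [← pow_add]
          exact one_le_pow₀ (by norm_num)
      _ = 2 ^ lam Y T := by
          rw [← pow_add, ← pow_mul]; congr 1; unfold lam; ring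
  · have h2 := nXη (lam Y (SS Y) + 2) (by
      have := lam_mono Y (SS_le Y)
      unfold PP; omega)
    have h1 : 4 * ((Fintype.card (Fin (DD Y) × Fin (DD Y)) : ℝ) * 2 ^ gam Y (SS Y) *
        ((2 ^ EE Y : ℕ) : ℝ)) / ((2 ^ EE Y : ℕ) : ℝ) ^ (Y + 2) ≤ ((2 : ℝ) ^ (lam Y (SS Y) + 1))⁻¹ := by
      have h3 : 4 * ((Fintype.card (Fin (DD Y) × Fin (DD Y)) : ℝ) * 2 ^ gam Y (SS Y) *
          ((2 ^ EE Y : ℕ) : ℝ)) ≤ 2 ^ (2 + tt Y + gam Y (SS Y) + EE Y) := by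
        rw [pow_add, pow_add, pow_add]
        push_cast
        calc 4 * ((Fintype.card (Fin (DD Y) × Fin (DD Y)) : ℝ) * 2 ^ gam Y (SS Y) * 2 ^ EE Y)
            ≤ 4 * (2 ^ tt Y * 2 ^ gam Y (SS Y) * 2 ^ EE Y) := by gcongr
          _ = _ := by ring
      have h4 : ((2 ^ EE Y : ℕ) : ℝ) ^ (Y + 2) = 2 ^ (EE Y * (Y + 2)) := by
        push_cast; rw [pow_mul]
      rw [h4, div_eq_mul_inv]
      refine (mul_le_mul_of_nonneg_right h3 (by positivity)).trans (two_aux ?_)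
      have h5 := start_eq Y
      have h6 : EE Y * (Y + 2) = EE Y * (Y + 1) + EE Y := by ring
      omega
    have h3 : ((2 : ℝ) ^ (lam Y (SS Y) + 1))⁻¹ = ((2 : ℝ) ^ lam Y (SS Y))⁻¹ / 2 := by
      rw [pow_succ]; field_simp
    have h4 : ((2 : ℝ) ^ (lam Y (SS Y) + 2))⁻¹ = ((2 : ℝ) ^ lam Y (SS Y))⁻¹ / 4 := by
      rw [pow_add]; field_simp; norm_num
    have h5 : 0 < ((2 : ℝ) ^ lam Y (SS Y))⁻¹ := by positivity
    rw [h3] at h1
    rw [h4] at h2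
    show _ < ((2 : ℝ) ^ lam Y (SS Y))⁻¹
    linarith
  · intro T hT hT2
    have hT1 : 1 ≤ T := (SS_pos Y).trans hT
    have hlm : lam Y (T + 1) ≤ lam Y (Tf Y) := lam_mono Y hT2
    have hP : PP Y v = 10 + 4 * tt Y + EE Y + (4 + Y + tt Y + v) * Tf Y ^ 3 + lam Y (Tf Y) := rfl
    have a3 := nXη (lam Y (T + 1) + 3) (by omega)
    rw [card_box]
    have a1 : (Fintype.card (Fin (DD Y) × Fin (DD Y)) : ℝ) * ((2 ^ EE Y : ℕ) : ℝ) * 2 ^ gam Y T /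
        2 ^ (T ^ 3) ≤ ((2 : ℝ) ^ (lam Y (T + 1) + 3))⁻¹ := by
      rw [div_eq_mul_inv]
      refine le_trans ?_ (two_aux (a := tt Y + EE Y + gam Y T) (b := T ^ 3) ?_)
      · rw [pow_add, pow_add]
        push_cast
        gcongr
      · have := main_ineq Y T hY hT
        omega
    have a2 : 2 * (((T ^ 3 : ℕ) : ℝ) * ((Fintype.card (Fin (DD Y) × Fin (DD Y)) : ℝ) *
        ((2 ^ EE Y : ℕ) : ℝ) * η) * (6 * (Y * T) / (V : ℝ)⁻¹) ^ (T ^ 3)) ≤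
        ((2 : ℝ) ^ (lam Y (T + 1) + 3))⁻¹ := by
      have b1 : ((T ^ 3 : ℕ) : ℝ) ≤ 2 ^ (3 * tt Y) := by
        push_cast
        rw [mul_comm, pow_mul]
        exact pow_le_pow_left₀ (by positivity) (hTle T hT2.le) 3
      have b2 : 6 * (Y * T) / (V : ℝ)⁻¹ ≤ 2 ^ (3 + Y + tt Y + v) := by
        rw [div_inv_eq_mul, pow_add, pow_add, pow_add]
        calc 6 * ((Y : ℝ) * T) * V = 6 * Y * T * V := by ring
          _ ≤ 2 ^ 3 * 2 ^ Y * 2 ^ tt Y * 2 ^ v := by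
              have := hTle T hT2.le
              gcongr
              norm_num
      have b3 : (6 * (Y * T) / (V : ℝ)⁻¹) ^ (T ^ 3) ≤ 2 ^ ((3 + Y + tt Y + v) * Tf Y ^ 3) := by
        rw [pow_mul]
        have b4 : (1 : ℝ) ≤ 2 ^ (3 + Y + tt Y + v) := one_le_pow₀ (by norm_num)
        refine (pow_le_pow_left₀ (by positivity) b2 _).trans (pow_le_pow_right₀ b4 ?_)
        exact Nat.pow_le_pow_left hT2.le 3
      have b5 : (4 + Y + tt Y + v) * Tf Y ^ 3 = (3 + Y + tt Y + v) * Tf Y ^ 3 + Tf Y ^ 3 := by ring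
      calc 2 * (((T ^ 3 : ℕ) : ℝ) * ((Fintype.card (Fin (DD Y) × Fin (DD Y)) : ℝ) *
            ((2 ^ EE Y : ℕ) : ℝ) * η) * (6 * (Y * T) / (V : ℝ)⁻¹) ^ (T ^ 3))
          ≤ 2 * (2 ^ (3 * tt Y) * (2 ^ tt Y * ((2 ^ EE Y : ℕ) : ℝ) * η) *
            2 ^ ((3 + Y + tt Y + v) * Tf Y ^ 3)) := by gcongr
        _ = 2 ^ (1 + 4 * tt Y + EE Y + (3 + Y + tt Y + v) * Tf Y ^ 3) * η := by
            push_cast
            rw [pow_add 2 _ ((3 + Y + tt Y + v) * Tf Y ^ 3), pow_add 2 _ (EE Y), pow_add 2 1 _,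
              show 4 * tt Y = 3 * tt Y + tt Y by ring, pow_add 2 (3 * tt Y) (tt Y)]
            ring
        _ ≤ _ := two_aux (by omega)
    have h4 : ((2 : ℝ) ^ (lam Y (T + 1) + 3))⁻¹ = ((2 : ℝ) ^ lam Y (T + 1))⁻¹ / 8 := by
      rw [pow_add]; field_simp; norm_num
    have h5 : 0 < ((2 : ℝ) ^ lam Y (T + 1))⁻¹ := by positivity
    rw [h4] at a1 a2 a3
    show _ < ((2 : ℝ) ^ lam Y (T + 1))⁻¹
    linarith

end Pool.Agent.H118.SY
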